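import Mathlib
import Pool.Agent.N328.LF.Defs

/-!
Project LF (helper328): volumes of Hamming balls (helper966).
-/

set_option autoImplicit false

namespace Pool.Agent.N966.LF
open Finset Pool.Agent.H160R2.HF Pool.Agent.N328.LF

theorem vol_mul_le (N d : ℕ) (x : ℝ) (hx : 0 < x) (hx1 : x ≤ 1) :
    (vol N d : ℝ) * x ^ d ≤ (1 + x) ^ N := by
  have h1 : (vol N d : ℝ) * x ^ d ≤ ∑ i ∈ range (d + 1), x ^ i * (N.choose i : ℝ) := by
    unfold vol
    push_cast
    rw [Finset.sum_mul]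
    refine Finset.sum_le_sum fun i hi => ?_
    rw [mul_comm]
    refine mul_le_mul_of_nonneg_right ?_ (Nat.cast_nonneg _)
    exact pow_le_pow_of_le_one hx.le hx1 (Nat.lt_succ_iff.1 (Finset.mem_range.1 hi))
  have h2 : ∑ i ∈ range (d + 1), x ^ i * (N.choose i : ℝ) ≤
      ∑ i ∈ range (max (d + 1) (N + 1)), x ^ i * (N.choose i : ℝ) :=
    Finset.sum_le_sum_of_subset_of_nonneg (Finset.range_subset_range.2 (le_max_left _ _))
      fun i _ _ => by positivity
  have h3 : ∑ i ∈ range (max (d + 1) (N + 1)), x ^ i * (N.choose i : ℝ) =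
      ∑ i ∈ range (N + 1), x ^ i * (N.choose i : ℝ) := by
    symm
    refine Finset.sum_subset (Finset.range_subset_range.2 (le_max_right _ _)) fun i _ hi => ?_
    rw [Finset.mem_range, not_lt] at hi
    rw [Nat.choose_eq_zero_of_lt (by omega)]
    simp
  have h4 : ∑ i ∈ range (N + 1), x ^ i * (N.choose i : ℝ) = (1 + x) ^ N := by
    rw [add_comm 1 x, add_pow]
    simp
  linarith

theorem vol_le (γ : ℝ) (hγ : 0 < γ) : ∃ δ : ℝ, 0 < δ ∧ ∀ N d : ℕ, (d : ℝ) ≤ δ * N →
    (vol N d : ℝ) ≤ (2 : ℝ) ^ (γ * N) := by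
  set x : ℝ := min 1 ((2 : ℝ) ^ (γ / 2) - 1) with hx
  have hx0 : 0 < x := by
    refine lt_min one_pos ?_
    have := Real.one_lt_rpow (x := 2) (z := γ / 2) (by norm_num) (by positivity)
    linarith
  have hx1 : x ≤ 1 := min_le_left _ _
  have hx2 : 1 + x ≤ (2 : ℝ) ^ (γ / 2) := by
    have := min_le_right 1 ((2 : ℝ) ^ (γ / 2) - 1)
    rw [← hx] at this
    linarith
  set l : ℝ := Real.logb 2 (1 / x) with hl
  have hl0 : 0 ≤ l := Real.logb_nonneg (by norm_num) (by rw [le_div_iff₀ hx0]; linarith)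
  have hxl : x = (2 : ℝ) ^ (-l) := by
    rw [Real.rpow_neg (by norm_num), hl, Real.rpow_logb (by norm_num) (by norm_num) (by positivity)]
    simp
  refine ⟨γ / (2 * (l + 1)), by positivity, fun N d hd => ?_⟩
  have h1 := vol_mul_le N d x hx0 hx1
  have h2 : (1 + x) ^ N ≤ (2 : ℝ) ^ (γ / 2 * N) := by
    rw [Real.rpow_mul (by norm_num), Real.rpow_natCast]
    exact pow_le_pow_left₀ (by linarith) hx2 N
  have h3 : (2 : ℝ) ^ (-(γ / 2 * N)) ≤ x ^ d := by
    rw [← Real.rpow_natCast x d, hxl, ← Real.rpow_mul (by norm_num)]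
    refine Real.rpow_le_rpow_of_exponent_le (by norm_num) ?_
    have h4 : l * d ≤ γ / 2 * N := by
      have h5 : l * d ≤ (l + 1) * d := by
        have : (0 : ℝ) ≤ d := Nat.cast_nonneg d
        nlinarith
      have h6 : (l + 1) * (d : ℝ) ≤ (l + 1) * (γ / (2 * (l + 1)) * N) :=
        mul_le_mul_of_nonneg_left hd (by linarith)
      have h7 : (l + 1) * (γ / (2 * (l + 1)) * N) = γ / 2 * N := by
        field_simp
      linarith
    linarith
  have h8 : (vol N d : ℝ) * (2 : ℝ) ^ (-(γ / 2 * N)) ≤ (2 : ℝ) ^ (γ / 2 * N) :=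
    (mul_le_mul_of_nonneg_left h3 (Nat.cast_nonneg _)).trans (h1.trans h2)
  have h9 : (vol N d : ℝ) = (vol N d : ℝ) * (2 : ℝ) ^ (-(γ / 2 * N)) * (2 : ℝ) ^ (γ / 2 * N) := by
    rw [mul_assoc, ← Real.rpow_add (by norm_num)]
    simp
  rw [h9]
  refine (mul_le_mul_of_nonneg_right h8 (by positivity)).trans ?_
  rw [← Real.rpow_add (by norm_num)]
  apply le_of_eq
  congr 1
  ring

theorem choose_ge_aux (x : ℕ) : ∀ N : ℕ, 2 * x ≤ N → 2 ^ x ≤ N.choose x := by
  induction x with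
  | zero => intro N _; simp
  | succ x ih =>
    intro N hN
    obtain ⟨M, rfl⟩ : ∃ M, N = M + 2 := ⟨N - 2, by omega⟩
    have h1 := ih M (by omega)
    have h2 : (M + 2).choose (x + 1) = (M + 1).choose x + (M + 1).choose (x + 1) :=
      Nat.choose_succ_succ _ _
    have h3 : (M + 1).choose (x + 1) = M.choose x + M.choose (x + 1) :=
      Nat.choose_succ_succ _ _
    have h4 : M.choose x ≤ (M + 1).choose x := Nat.choose_le_choose x (Nat.le_succ M)
    rw [pow_succ]
    omega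

theorem choose_ge (N x : ℕ) (hx : x ≤ N) : 2 ^ (min x (N - x)) ≤ N.choose x := by
  rcases le_total x (N - x) with h | h
  · rw [min_eq_left h]
    exact choose_ge_aux x N (by omega)
  · rw [min_eq_right h, ← Nat.choose_symm hx]
    exact choose_ge_aux (N - x) N (by omega)

end Pool.Agent.N966.LF

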